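import Pool.Agent.R223.ClosedRep

/-!
MP_fa2b2f_an, Q1: a minimizer of `M_lam` among the Borel subsets of a bounded domain need not have
a closed representative. The example is the real line with the Euclidean distance, a finite atomic
measure, and the interval `(0,1)`; in it no minimizer has a closed representative.
-/

set_option autoImplicit false

open MeasureTheory Set
open scoped ENNReal

namespace Pool.Agent.Results.MP_fa2b2f_an.NoClosedRepInside

open Pool.Agent.R223.ClosedRep

/-- There is a finite Borel measure `m` on the real line such that for `Ω = (0,1)` and every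
`lam > 0` the functional `M_lam(A) = Per(A) + lam m(Ω ∖ A)` has a minimizer among the Borel subsets
of `Ω` (namely `Ω` itself), and no minimizer has a closed representative. -/
theorem result : ∃ m : Measure ℝ, IsFiniteMeasure m ∧ ∀ lam : ℝ, 0 < lam →
    IsMinimizerM m (Ioo (0 : ℝ) 1) lam (Ioo (0 : ℝ) 1) ∧
    ∀ E : Set ℝ, IsMinimizerM m (Ioo (0 : ℝ) 1) lam E → ¬ HasClosedRepresentative m E := by
  refine ⟨mu, inferInstance, fun lam hlam => ?_⟩
  have hM : M mu (Ioo (0 : ℝ) 1) lam (Ioo (0 : ℝ) 1) = 0 := by
    unfold M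
    rw [perimeter_zero, diff_self]
    simp
  refine ⟨⟨measurableSet_Ioo, subset_rfl, fun A _ _ => by rw [hM]; exact bot_le⟩, ?_⟩
  rintro E ⟨_, hE, hmin⟩
  have h0 := hmin _ measurableSet_Ioo subset_rfl
  rw [hM] at h0
  have h1 : M mu (Ioo (0 : ℝ) 1) lam E = 0 := le_antisymm h0 bot_le
  unfold M at h1
  rw [add_eq_zero, mul_eq_zero] at h1
  have h2 : mu (Ioo (0 : ℝ) 1 \ E) = 0 := by
    rcases h1.2 with h | h
    · exact absurd h (by simpa using hlam)
    · exact h
  refine no_closed (fun h => by simpa using hE h) fun k => ?_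
  by_contra hk
  have h3 : {1 / ((k : ℝ) + 2)} ⊆ Ioo (0 : ℝ) 1 \ E := by
    rintro _ rfl
    exact ⟨atom_mem k, hk⟩
  have h4 := measure_mono (μ := mu) h3
  rw [h2] at h4
  exact absurd (mu_atom k) (not_lt.2 h4)

end Pool.Agent.Results.MP_fa2b2f_an.NoClosedRepInside
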